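import Pool.Agent.helper99.WN.Basic2

/-!
# WN CC: the states on the closed readings of the completion
-/

set_option autoImplicit false

open Classical

namespace Pool.Agent.WN

/-- the closed reading of an arc -/
theorem CC_arc {V : Type} {k : ℕ} {R : V → Lt k → V → Prop} {W : ℤ → Lt k} {N n : ℕ}
    (hW : Wd W N) {v : V} {i : ℤ} {y : V} {l J : ℕ} (ha : Arc R W v i y l)
    (hJ : J + l + N + 1 = n * N) :
    ∃ Z : ℤ → V × List (Lt k), Run (Rp R W N n) W i (i + (n : ℤ) * N) Z ∧
      Z (i + (n : ℤ) * N) = (v, []) ∧ ∀ q : ℕ, q ≤ J → Z (i + q) = (v, fw W i q) := by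
  have hN : 0 < N := hW.pos
  have hnN : (J : ℤ) + l + N + 1 = (n : ℤ) * N := by exact_mod_cast hJ
  obtain ⟨h1, h2, z0, hz1, hz2, hz3⟩ := ha
  have ha' : Arc R W v i y l := ⟨h1, h2, z0, hz1, hz2, hz3⟩
  obtain ⟨Z, hZ⟩ : ∃ Z : ℤ → V × List (Lt k), Z = fun t : ℤ =>
      if i + J + 1 + N ≤ t then (z0 (t - (n : ℤ) * N), [])
      else if t ≤ i + J then (v, fw W i (t - i).toNat)
      else (y, bw W (i - l) (i + J + 1 + N - t).toNat) := ⟨_, rfl⟩
  have hZ3 : ∀ t : ℤ, i + J + 1 + N ≤ t → Z t = (z0 (t - (n : ℤ) * N), []) := by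
    intro t ht
    rw [hZ]
    show (if i + J + 1 + N ≤ t then _ else _) = _
    rw [if_pos ht]
  have hZ1 : ∀ q : ℕ, q ≤ J → Z (i + q) = (v, fw W i q) := by
    intro q hq
    rw [hZ]
    show (if i + J + 1 + N ≤ i + (q : ℤ) then _ else if i + (q : ℤ) ≤ i + J then _ else _) = _
    rw [if_neg (by omega), if_pos (by omega)]
    have h3 : (i + (q : ℤ) - i).toNat = q := by omega
    rw [h3]
  have hZ2 : ∀ q : ℕ, q ≤ N → Z (i + J + 1 + N - q) = (y, bw W (i - l) q) := by
    intro q hq
    by_cases h0 : q = 0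
    · subst h0
      rw [hZ3 _ (by simp)]
      have h3 : i + J + 1 + N - ((0 : ℕ) : ℤ) - (n : ℤ) * N = i - l := by
        rw [← hnN]; push_cast; ring
      rw [h3, hz1]
      rfl
    · rw [hZ]
      show (if i + J + 1 + N ≤ i + J + 1 + N - (q : ℤ) then _
        else if i + J + 1 + N - (q : ℤ) ≤ i + J then _ else _) = _
      rw [if_neg (by omega), if_neg (by omega)]
      have h3 : (i + J + 1 + N - (i + J + 1 + N - (q : ℤ))).toNat = q := by omega
      rw [h3]
  refine ⟨Z, ?_, ?_, hZ1⟩
  · intro t ht1 ht2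
    rw [← hnN] at ht2
    rcases lt_trichotomy t (i + J) with h3 | h3 | h3
    · obtain ⟨q, hq⟩ : ∃ q : ℕ, t = i + q := ⟨(t - i).toNat, by omega⟩
      subst hq
      have h4 := hZ1 (q + 1) (by omega)
      have h5 : i + ((q + 1 : ℕ) : ℤ) = i + q + 1 := by push_cast; ring
      rw [h5] at h4
      rw [hZ1 q (by omega), h4]
      have h6 : Al R W N n v (fw W i (q + 1)) :=
        ⟨fw_chain hW i (q + 1), ⟨W i, fw_getLast i q, h1⟩,
          Or.inr ⟨i, q + 1, y, l, ha', rfl, by omega⟩⟩
      exact Rp.down h6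
    · subst h3
      have h4 := hZ2 N le_rfl
      have h5 : i + J + 1 + N - (N : ℤ) = i + J + 1 := by ring
      rw [h5] at h4
      rw [hZ1 J le_rfl, h4]
      exact Rp.cf ha' hJ
    · by_cases h4 : t < i + J + 1 + N
      · obtain ⟨q, hq⟩ : ∃ q : ℕ, t = i + J + 1 + N - ((q + 1 : ℕ) : ℤ) :=
          ⟨(i + J + N - t).toNat, by push_cast; omega⟩
        have h5 := hZ2 (q + 1) (by push_cast at hq; omega)
        have h6 := hZ2 q (by push_cast at hq; omega)
        rw [← hq] at h5
        have h7 : i + J + 1 + N - (q : ℤ) = t + 1 := by rw [hq]; push_cast; ring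
        rw [h7] at h6
        rw [h5, h6]
        have h8 : Al R W N n y (bw W (i - l) (q + 1)) :=
          ⟨bw_chain hW (i - l) (q + 1), ⟨_, bw_getLast (i - l) q, h2⟩,
            Or.inl (by rw [bw_length]; push_cast at hq; omega)⟩
        have h9 : W t = iv (iv (W (i - l - 1 - q))) := by
          rw [iv_iv]
          apply hW.per_dvd
          refine ⟨n, ?_⟩
          rw [mul_comm, ← hnN, hq]
          push_cast
          ring
        rw [h9]
        exact Rp.up h8
      · rw [hZ3 t (by omega), hZ3 (t + 1) (by omega)]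
        have h5 : t + 1 - (n : ℤ) * N = t - (n : ℤ) * N + 1 := by ring
        have h6 : W t = W (t - (n : ℤ) * N) := by
          apply hW.per_dvd
          exact ⟨n, by ring⟩
        rw [h5, h6]
        exact Rp.base (hz3 _ (by rw [← hnN]; omega) (by rw [← hnN]; omega))
  · rw [hZ3 _ (by rw [← hnN]; omega), add_sub_cancel_right, hz2]

theorem CC_base {V : Type} {k : ℕ} {R : V → Lt k → V → Prop} {W : ℤ → Lt k} {N n : ℕ} {s e : ℤ}
    {z : ℤ → V} (h : Run R W s e z) :
    Run (Rp R W N n) W s e (fun t => (z t, ([] : List (Lt k)))) :=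
  fun t h1 h2 => Rp.base (h t h1 h2)

theorem CC (hCA : CA_stmt) (hCB : CB_stmt) (hCY : CY_stmt) : CC_stmt := by
  intro V k R W N n H
  obtain ⟨hA1, hA2, -, -⟩ := hCA V k R W N n H
  obtain ⟨hdet, hsym⟩ := hCB V k R W N n H
  have hW := H.wd
  have hN := hW.pos
  have h7 := H.seven
  have hY := hCY (V × List (Lt k)) k (Rp R W N n) W N n hW (by omega) hdet hsym
  -- the second statement
  have hB : ∀ v i y l m, Arc R W v i y l → m + l + N + 1 ≤ n * N →
      ClAt (Rp R W N n) W N n (i + m) (v, fw W i m) := by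
    intro v i y l m ha hm
    obtain ⟨Z, hZ1, hZ2, hZ3⟩ := CC_arc (n := n) (J := n * N - N - 1 - l) hW ha (by omega)
    have h0 := hZ3 0 (Nat.zero_le _)
    rw [Nat.cast_zero, add_zero] at h0
    have h1 := hZ3 m (by omega)
    have h2 : (0 : ℤ) ≤ (n : ℤ) * N := by positivity
    have h3 : ClAt (Rp R W N n) W N n i (Z i) := by
      refine ⟨Z, hZ1, rfl, ?_⟩
      rw [hZ2, h0]
      rfl
    have h4 : (m : ℤ) ≤ (n : ℤ) * N := by
      have : m ≤ n * N := by omega
      exact_mod_cast this
    have h5 := hY i (i + (n : ℤ) * N) Z hZ1 i le_rfl (by linarith) h3 (i + m) (by omega)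
      (by linarith)
    rwa [h1] at h5
  refine ⟨fun v j => ?_, hB⟩
  by_cases hfull : ∃ z : ℤ → V, Run R W j (j + ((n : ℤ) - 3) * N) z ∧ z j = v
  · obtain ⟨z, hz1, hz2⟩ := hfull
    obtain ⟨z', h1, h2, h3⟩ := H.cl j z hz1
    refine ⟨fun t => (z' t, []), CC_base h1, ?_, ?_⟩
    · show (z' j, ([] : List (Lt k))) = (v, [])
      rw [h2, hz2]
    · show (z' (j + (n : ℤ) * N), ([] : List (Lt k))) = (v, [])
      rw [h3, hz2]
  · -- the longest run
    have hex : ∃ q : ℕ, ¬ ∃ z : ℤ → V, Run R W j (j + q) z ∧ z j = v := by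
      refine ⟨(n - 3) * N, ?_⟩
      intro h
      apply hfull
      have h1 : (((n - 3) * N : ℕ) : ℤ) = ((n : ℤ) - 3) * N := by
        rw [Nat.cast_mul, Nat.cast_sub (by omega)]
        norm_num
      rwa [h1] at h
    have hspec := Nat.find_spec hex
    have hmin := fun q hq => Nat.find_min hex (m := q) hq
    generalize Nat.find hex = q0 at hspec hmin
    have hq0 : q0 ≠ 0 := by
      intro h
      apply hspec
      refine ⟨fun _ => v, ?_, rfl⟩
      intro t h1 h2
      rw [h] at h2
      simp only [Nat.cast_zero, add_zero] at h2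
      omega
    obtain ⟨q, rfl⟩ := Nat.exists_eq_succ_of_ne_zero hq0
    have h1 := hmin q (Nat.lt_succ_self q)
    rw [not_not] at h1
    obtain ⟨z, hz1, hz2⟩ := h1
    have hms : Ms R (z (j + q)) (W (j + q)) := by
      intro v' hv'
      apply hspec
      refine ⟨fun t => if t = j + q + 1 then v' else z t, ?_, ?_⟩
      · intro t h1 h2
        show R (if t = j + q + 1 then v' else z t) (W t)
          (if t + 1 = j + q + 1 then v' else z (t + 1))
        rw [Nat.cast_succ] at h2
        rw [if_neg (by omega)]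
        by_cases h3 : t = j + q
        · rw [if_pos (by omega), h3]
          exact hv'
        · rw [if_neg (by omega)]
          exact hz1 t h1 (by omega)
      · show (if j = j + q + 1 then v' else z j) = v
        rw [if_neg (by omega)]
        exact hz2
    obtain ⟨y, l, ha⟩ := hA1 _ _ hms
    have hl := hA2 _ _ _ _ ha
    have h2 := hB (z (j + q)) (j + q) y l 0 ha (by
      have h3 : (l : ℤ) + 3 * N < (n : ℤ) * N := by linarith
      have h4 : l + 3 * N < n * N := by exact_mod_cast h3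
      omega)
    rw [Nat.cast_zero, add_zero] at h2
    have h3 := hY j (j + q) (fun t => (z t, [])) (CC_base hz1) (j + q) (by omega) le_rfl h2 j le_rfl
      (by omega)
    show ClAt (Rp R W N n) W N n j (v, [])
    rw [← hz2]
    exact h3

end Pool.Agent.WN
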