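import Pool.Agent.helper99.WN.SpecA

/-!
# WN WA: every element which is not a proper power is conjugate to the word of one period
-/

set_option autoImplicit false

open Classical

namespace Pool.Agent.WN

theorem WA_per {k : ℕ} (W : ℤ → Lt k) (d : ℕ) (hd : ∀ i : ℤ, W (i + d) = W i) (m : ℕ) (i : ℤ) :
    W (i + m * d) = W i := by
  induction m with
  | zero => simp
  | succ m ih =>
    have h1 := hd (i + m * d)
    rw [ih] at h1
    rw [← h1]
    congr 1
    push_cast
    ring

theorem WA_pow {k : ℕ} (W : ℤ → Lt k) (d : ℕ) (hd : ∀ i : ℤ, W (i + d) = W i) (m : ℕ) :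
    wd W 0 (m * d) = wd W 0 d ^ m := by
  induction m with
  | zero => simp
  | succ m ih =>
    rw [add_mul, one_mul, wd_add, ih, pow_succ]
    congr 1
    apply wd_congr
    intro t _
    have h1 := WA_per W d hd m ((t : ℤ))
    have h2 : 0 + ((m * d : ℕ) : ℤ) + (t : ℤ) = (t : ℤ) + m * d := by push_cast; ring
    have h3 : 0 + (t : ℤ) = t := zero_add _
    rw [h3, ← h1, ← h2]

theorem WA_mod {N : ℕ} (hN : 0 < N) (i : ℤ) : ∃ r : ℕ, r < N ∧ i % (N : ℤ) = r := by
  have h1 := Int.emod_nonneg i (show (N : ℤ) ≠ 0 by omega)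
  have h2 := Int.emod_lt_of_pos i (show (0 : ℤ) < N by omega)
  exact ⟨(i % (N : ℤ)).toNat, by omega, by omega⟩

theorem WA (hWP : WP_stmt) : WA_stmt := by
  intro k w hw
  have hw1 : w ≠ 1 := fun h => hw 1 2 le_rfl (by rw [h, one_pow])
  have hLc : FreeGroup.IsCyclicallyReduced (FreeGroup.reduceCyclically w.toWord) :=
    FreeGroup.reduceCyclically.isCyclicallyReduced FreeGroup.isReduced_toWord
  have hLw := FreeGroup.reduceCyclically.conj_conjugator_reduceCyclically w.toWord
  generalize FreeGroup.reduceCyclically w.toWord = L at hLc hLw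
  generalize FreeGroup.reduceCyclically.conjugator w.toWord = C at hLw
  have hwL : w = FreeGroup.mk C * FreeGroup.mk L * (FreeGroup.mk C)⁻¹ := by
    rw [FreeGroup.inv_mk, FreeGroup.mul_mk, FreeGroup.mul_mk, hLw, FreeGroup.mk_toWord]
  have hL : L ≠ [] := by
    intro h
    apply hw1
    rw [hwL, h]
    have h2 : (FreeGroup.mk ([] : List (Fin k × Bool))) = 1 := rfl
    rw [h2, mul_one, mul_inv_cancel]
  have hN : 0 < L.length := List.length_pos_iff.2 hL
  obtain ⟨W, hWdef⟩ : ∃ W : ℤ → Lt k, ∀ (i : ℤ) (r : ℕ) (hr : r < L.length),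
      i % (L.length : ℤ) = r → W i = L[r] := by
    refine ⟨fun i => L.getD (i % (L.length : ℤ)).toNat (L.head hL), fun i r hr hir => ?_⟩
    have h1 : (i % (L.length : ℤ)).toNat = r := by omega
    show L.getD (i % (L.length : ℤ)).toNat (L.head hL) = L[r]
    rw [h1, List.getD_eq_getElem _ _ hr]
  have hwd : wd W 0 L.length = FreeGroup.mk L := by
    unfold wd
    congr 1
    apply List.ext_getElem
    · simp
    · intro r h1 h2
      rw [List.getElem_map, List.getElem_range]
      apply hWdef
      rw [zero_add]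
      exact Int.emod_eq_of_lt (by omega) (by omega)
  have hper : ∀ i : ℤ, W (i + L.length) = W i := by
    intro i
    obtain ⟨r, hr, hir⟩ := WA_mod hN i
    rw [hWdef i r hr hir, hWdef (i + L.length) r hr (by rw [Int.add_emod_right]; exact hir)]
  have hred : ∀ i : ℤ, W (i + 1) ≠ iv (W i) := by
    intro i h
    obtain ⟨r, hr, hir⟩ := WA_mod hN i
    have h0 := Int.mul_ediv_add_emod i (L.length : ℤ)
    by_cases h1 : r + 1 < L.length
    · have h2 : (i + 1) % (L.length : ℤ) = ((r + 1 : ℕ) : ℤ) := by
        rw [← h0, hir, add_assoc, Int.mul_add_emod_self_left]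
        exact Int.emod_eq_of_lt (by omega) (by omega)
      rw [hWdef i r hr hir, hWdef (i + 1) (r + 1) h1 h2] at h
      have h3 := List.isChain_iff_getElem.1 hLc.1 r h1
      have h4 : L[r].2 = L[r + 1].2 := h3 (by rw [h]; rfl)
      rw [h] at h4
      simp [iv] at h4
    · have h2 : (i + 1) % (L.length : ℤ) = ((0 : ℕ) : ℤ) := by
        have h5 : i + 1 = (L.length : ℤ) * (i / (L.length : ℤ) + 1) := by
          have h6 : (r : ℤ) + 1 = (L.length : ℤ) := by omega
          rw [mul_add, mul_one]
          linarith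
        rw [h5]
        simp
      rw [hWdef i r hr hir, hWdef (i + 1) 0 hN h2] at h
      have h3 := hLc.2 L[r] (by
        rw [List.getLast?_eq_getElem?]
        have h7 : L.length - 1 = r := by omega
        rw [h7, List.getElem?_eq_getElem hr]
        exact Option.mem_some_self _) L[0] (by
        rw [List.head?_eq_getElem?, List.getElem?_eq_getElem hN]
        exact Option.mem_some_self _)
      have h4 : L[r].2 = L[0].2 := h3 (by rw [h]; rfl)
      rw [h] at h4
      simp [iv] at h4
  refine ⟨L.length, W, FreeGroup.mk C, hWP k W L.length hN hper hred ?_, by rw [hwd]; exact hwL⟩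
  intro d hd0 hdN hdlt hdper
  obtain ⟨m, hm⟩ := hdN
  have hm2 : 2 ≤ m := by
    by_contra hc
    have h1 : m = 0 ∨ m = 1 := by omega
    rcases h1 with h1 | h1
    · rw [h1] at hm; omega
    · rw [h1, mul_one] at hm; omega
  apply hw (FreeGroup.mk C * wd W 0 d * (FreeGroup.mk C)⁻¹) m hm2
  rw [conj_pow, ← WA_pow W d hdper m, mul_comm m d, ← hm, hwd]
  exact hwL

end Pool.Agent.WN
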